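import Pool.Agent.Helper71.P4.St

set_option autoImplicit false

open MeasureTheory Set Filter Topology

noncomputable section

namespace Helper71.P4

open Helper69.CR

/-- Hölder for finite sums through the weighted AM-GM inequality. -/
private lemma holder_TN (m : ℕ) (μ x : ℕ → ℝ) (θ A K : ℝ) (hμ : ∀ k, 0 ≤ μ k) (hx : ∀ k, 0 ≤ x k)
    (h0 : 0 ≤ θ) (h1 : θ ≤ 1) (hA : 0 < A) (hK : 0 < K)
    (hS0 : 2 * ∑ k ∈ Finset.range m, μ k ≤ A)
    (hS1 : 2 * ∑ k ∈ Finset.range m, μ k * x k ≤ K) :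
    2 * ∑ k ∈ Finset.range m, μ k * x k ^ θ ≤ A ^ (1 - θ) * K ^ θ := by
  have key : ∀ k, A ^ θ * K ^ (1 - θ) * (x k ^ θ) ≤ θ * (A * x k) + (1 - θ) * K := by
    intro k
    have h := Real.geom_mean_le_arith_mean2_weighted h0 (by linarith : (0 : ℝ) ≤ 1 - θ)
      (mul_nonneg hA.le (hx k)) hK.le (by ring : θ + (1 - θ) = 1)
    rw [Real.mul_rpow hA.le (hx k)] at h
    calc A ^ θ * K ^ (1 - θ) * (x k ^ θ) = A ^ θ * x k ^ θ * K ^ (1 - θ) := by ring
      _ ≤ _ := h
  have hsum : A ^ θ * K ^ (1 - θ) * (2 * ∑ k ∈ Finset.range m, μ k * x k ^ θ) ≤ A * K := by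
    calc A ^ θ * K ^ (1 - θ) * (2 * ∑ k ∈ Finset.range m, μ k * x k ^ θ)
        = 2 * ∑ k ∈ Finset.range m, μ k * (A ^ θ * K ^ (1 - θ) * (x k ^ θ)) := by
          rw [mul_left_comm, Finset.mul_sum]
          congr 1
          apply Finset.sum_congr rfl
          intro k _
          ring
      _ ≤ 2 * ∑ k ∈ Finset.range m, μ k * (θ * (A * x k) + (1 - θ) * K) := by
          gcongr with k _
          · exact hμ k
          · exact key k
      _ = θ * A * (2 * ∑ k ∈ Finset.range m, μ k * x k) +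
            (1 - θ) * K * (2 * ∑ k ∈ Finset.range m, μ k) := by
          rw [Finset.mul_sum, Finset.mul_sum, Finset.mul_sum, Finset.mul_sum, Finset.mul_sum,
            ← Finset.sum_add_distrib]
          apply Finset.sum_congr rfl
          intro k _
          ring
      _ ≤ θ * A * K + (1 - θ) * K * A := by
          gcongr
      _ = A * K := by ring
  have hpos : 0 < A ^ θ * K ^ (1 - θ) := by positivity
  have e : A * K = A ^ θ * K ^ (1 - θ) * (A ^ (1 - θ) * K ^ θ) := by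
    have e1 : A ^ θ * A ^ (1 - θ) = A := by
      rw [← Real.rpow_add hA]
      simp
    have e2 : K ^ (1 - θ) * K ^ θ = K := by
      rw [← Real.rpow_add hK]
      simp
    calc A * K = (A ^ θ * A ^ (1 - θ)) * (K ^ (1 - θ) * K ^ θ) := by rw [e1, e2]
      _ = _ := by ring
  rw [e] at hsum
  exact le_of_mul_le_mul_left hsum hpos

private lemma Cn_nonneg_TN (n : ℕ) (a : ℝ) (h0 : 0 ≤ a) (h1 : a ≤ 1) : 0 ≤ Cn n a := by
  unfold Cn
  apply Finset.prod_nonneg
  intro k _
  apply div_nonneg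
  · have : (0 : ℝ) ≤ k := Nat.cast_nonneg k
    linarith
  · positivity

theorem hTN : StNC → StTN := by
  intro hNC n M M1 hn3 hn7 hT μ hμ hM hM1 p hp
  obtain ⟨hM0, hM10, K, hK2, hK4, hK8, hK16⟩ := hT
  set m := 2 * n with hm
  have hp0 : (0 : ℝ) < p := by linarith
  -- the exponent
  set θ : ℝ := 1 - 4 / p with hθ
  have hθ0 : 1 / 2 ≤ θ := by
    rw [hθ]
    have : 4 / p ≤ 1 / 2 := by rw [div_le_iff₀ hp0]; linarith
    linarith
  have hθ1 : θ ≤ 1 := by
    rw [hθ]
    have : 0 ≤ 4 / p := by positivity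
    linarith
  have hP : ∀ k : ℕ, (1 : ℝ) ≤ 1 + 37 / 20 * Real.sqrt k := by
    intro k
    have := Real.sqrt_nonneg (k : ℝ)
    linarith
  have hS00 : 0 ≤ ∑ k ∈ Finset.range m, μ k := Finset.sum_nonneg (fun k _ => hμ k)
  have hS10 : 0 ≤ ∑ k ∈ Finset.range m, (k : ℝ) * μ k :=
    Finset.sum_nonneg (fun k _ => mul_nonneg (Nat.cast_nonneg k) (hμ k))
  -- the sum with exponent one
  have hCS : ∑ k ∈ Finset.range m, μ k * Real.sqrt k ≤ Real.sqrt (M * M1) := by
    apply Real.le_sqrt_of_sq_le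
    have h := Finset.sum_mul_sq_le_sq_mul_sq (Finset.range m) (fun k => Real.sqrt (μ k))
      (fun k => Real.sqrt (μ k) * Real.sqrt k)
    have e1 : ∑ k ∈ Finset.range m, Real.sqrt (μ k) * (Real.sqrt (μ k) * Real.sqrt k) =
        ∑ k ∈ Finset.range m, μ k * Real.sqrt k := by
      apply Finset.sum_congr rfl
      intro k _
      rw [← mul_assoc, Real.mul_self_sqrt (hμ k)]
    have e2 : ∑ k ∈ Finset.range m, Real.sqrt (μ k) ^ 2 = ∑ k ∈ Finset.range m, μ k := by
      apply Finset.sum_congr rfl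
      intro k _
      rw [Real.sq_sqrt (hμ k)]
    have e3 : ∑ k ∈ Finset.range m, (Real.sqrt (μ k) * Real.sqrt k) ^ 2 =
        ∑ k ∈ Finset.range m, (k : ℝ) * μ k := by
      apply Finset.sum_congr rfl
      intro k _
      rw [mul_pow, Real.sq_sqrt (hμ k), Real.sq_sqrt (Nat.cast_nonneg k)]
      ring
    rw [e1, e2, e3] at h
    calc _ ≤ _ := h
      _ ≤ M * M1 := by gcongr
  have hKM : 37 / 10 * Real.sqrt (M * M1) ≤ K - 2 * M := by
    have h0 : 0 ≤ K - 2 * M := by linarith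
    have h1 : (37 / 10 * Real.sqrt (M * M1)) ^ 2 ≤ (K - 2 * M) ^ 2 := by
      rw [mul_pow, Real.sq_sqrt (mul_nonneg hM0 hM10)]
      calc (37 / 10 : ℝ) ^ 2 * (M * M1) = 4 * (37 / 20) ^ 2 * M * M1 := by ring
        _ ≤ _ := hK4
    exact (pow_le_pow_iff_left₀ (by positivity) h0 (by norm_num)).1 h1
  have hS1 : 2 * ∑ k ∈ Finset.range m, μ k * (1 + 37 / 20 * Real.sqrt k) ≤ K := by
    have e : ∑ k ∈ Finset.range m, μ k * (1 + 37 / 20 * Real.sqrt k) =
        ∑ k ∈ Finset.range m, μ k + 37 / 20 * ∑ k ∈ Finset.range m, μ k * Real.sqrt k := by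
      rw [Finset.mul_sum, ← Finset.sum_add_distrib]
      apply Finset.sum_congr rfl
      intro k _
      ring
    rw [e]
    linarith
  -- rewrite the sum
  have hsum : ∀ η : ℝ, 2 * ∑ k ∈ Finset.range m, μ k * (2 * (1 + 37 / 20 * Real.sqrt k) ^ η) =
      2 * (2 * ∑ k ∈ Finset.range m, μ k * (1 + 37 / 20 * Real.sqrt k) ^ η) := by
    intro η
    congr 1
    rw [Finset.mul_sum]
    apply Finset.sum_congr rfl
    intro k _
    ring
  rw [hsum]
  have hmono : ∀ η : ℝ, θ ≤ η → 2 * ∑ k ∈ Finset.range m, μ k * (1 + 37 / 20 * Real.sqrt k) ^ θ ≤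
      2 * ∑ k ∈ Finset.range m, μ k * (1 + 37 / 20 * Real.sqrt k) ^ η := by
    intro η hη
    gcongr with k _
    · exact hμ k
    · exact hP k
  have hn1 : 1 ≤ n := by omega
  rcases lt_or_ge p 16 with h16 | h16
  · -- p < 16
    have hθ34 : θ ≤ 3 / 4 := by
      rw [hθ]
      have : 1 / 4 ≤ 4 / p := by rw [le_div_iff₀ hp0]; linarith
      linarith
    have hkey : 2 * (2 * ∑ k ∈ Finset.range m, μ k * (1 + 37 / 20 * Real.sqrt k) ^ ((3 : ℝ) / 4)) ≤
        33 / 2000 * Cn n (1 / 8) ^ 2 := by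
      rcases hM0.eq_or_lt with hM00 | hMp
      · have hz : ∀ k ∈ Finset.range m, μ k = 0 := by
          have : ∑ k ∈ Finset.range m, μ k = 0 := by
            apply le_antisymm _ hS00
            rw [hM00]
            exact hM
          exact (Finset.sum_eq_zero_iff_of_nonneg (fun k _ => hμ k)).1 this
        rw [Finset.sum_eq_zero (fun k hk => by rw [hz k hk, zero_mul])]
        simp only [mul_zero]
        positivity
      · have hKp : 0 < K := by linarith
        have h := holder_TN m μ (fun k => 1 + 37 / 20 * Real.sqrt k) (3 / 4) (2 * M) K hμ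
          (fun k => by linarith [hP k]) (by norm_num) (by norm_num) (by linarith) hKp
          (by linarith) hS1
        have e1 : (1 : ℝ) - 3 / 4 = 1 / 4 := by norm_num
        rw [e1] at h
        have h2 : 2 * ((2 * M) ^ ((1 : ℝ) / 4) * K ^ ((3 : ℝ) / 4)) ≤
            33 / 2000 * Cn n (1 / 8) ^ 2 := by
          refine (pow_le_pow_iff_left₀ (by positivity) (by positivity) (by norm_num : (4 : ℕ) ≠ 0)).1 ?_
          refine le_trans (le_of_eq ?_) hK8
          rw [mul_pow, mul_pow, ← Real.rpow_natCast ((2 * M) ^ ((1 : ℝ) / 4)) 4,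
            ← Real.rpow_natCast (K ^ ((3 : ℝ) / 4)) 4, ← Real.rpow_mul (by positivity),
            ← Real.rpow_mul hKp.le]
          have e3 : (1 : ℝ) / 4 * ((4 : ℕ) : ℝ) = 1 := by norm_num
          have e4 : (3 : ℝ) / 4 * ((4 : ℕ) : ℝ) = ((3 : ℕ) : ℝ) := by norm_num
          rw [e3, e4, Real.rpow_one, Real.rpow_natCast]
          ring
        linarith
    have h1 := hmono (3 / 4) hθ34
    have hNC8 := hNC n 8 p hn1 (by norm_num) hp
    have hC8 : 0 ≤ Cn n (1 / 8) := Cn_nonneg_TN n _ (by norm_num) (by norm_num)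
    have h3 : 33 / 2000 * Cn n (1 / 8) ^ 2 ≤ 132 / 125 / p ^ 2 * Cn n (1 / p) ^ 2 := by
      have h4 : ((p - 1) / (8 - 1) * Cn n (1 / 8)) ^ 2 ≤ Cn n (1 / p) ^ 2 := by
        apply pow_le_pow_left₀ _ hNC8
        apply mul_nonneg _ hC8
        apply div_nonneg <;> linarith
      calc 33 / 2000 * Cn n (1 / 8) ^ 2
          ≤ 132 / 125 / p ^ 2 * ((p - 1) / (8 - 1) * Cn n (1 / 8)) ^ 2 := by
            rw [mul_pow, ← mul_assoc]
            gcongr
            rw [div_pow, div_mul_div_comm, le_div_iff₀ (by positivity)]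
            nlinarith
        _ ≤ _ := by gcongr
    linarith
  · -- 16 ≤ p
    have h1 := hmono 1 hθ1
    simp only [Real.rpow_one] at h1
    have hNC16 := hNC n 16 p hn1 (by norm_num) h16
    have hC16 : 0 ≤ Cn n (1 / 16) := Cn_nonneg_TN n _ (by norm_num) (by norm_num)
    have h3 : 33 / 8000 * Cn n (1 / 16) ^ 2 ≤ 132 / 125 / p ^ 2 * Cn n (1 / p) ^ 2 := by
      have h4 : ((p - 1) / (16 - 1) * Cn n (1 / 16)) ^ 2 ≤ Cn n (1 / p) ^ 2 := by
        apply pow_le_pow_left₀ _ hNC16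
        apply mul_nonneg _ hC16
        apply div_nonneg <;> linarith
      calc 33 / 8000 * Cn n (1 / 16) ^ 2
          ≤ 132 / 125 / p ^ 2 * ((p - 1) / (16 - 1) * Cn n (1 / 16)) ^ 2 := by
            rw [mul_pow, ← mul_assoc]
            gcongr
            rw [div_pow, div_mul_div_comm, le_div_iff₀ (by positivity)]
            nlinarith
        _ ≤ _ := by gcongr
    linarith

end Helper71.P4
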